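import Pool.Agent.Y485.UGS.Stm

/-!
Project UGS: the first step (S_LEVEL0).
-/

set_option autoImplicit false

namespace Pool.Agent.Y369.UGS

open Pool.Agent.Y485.UGS
open scoped commutatorElement

variable {G : Type} [Group G] {X : Finset G}

theorem ball_one (n : ℕ) : (1 : G) ∈ Ball X n := ⟨[], by simp, by simp, by simp⟩

theorem ball_mono {m n : ℕ} (h : m ≤ n) {g : G} (hg : g ∈ Ball X m) : g ∈ Ball X n := by
  obtain ⟨l, h1, h2, h3⟩ := hg
  exact ⟨l, h1.trans h, h2, h3⟩

theorem ball_mul {m n : ℕ} {g h : G} (hg : g ∈ Ball X m) (hh : h ∈ Ball X n) :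
    g * h ∈ Ball X (m + n) := by
  obtain ⟨l, h1, h2, h3⟩ := hg
  obtain ⟨l', h1', h2', h3'⟩ := hh
  refine ⟨l ++ l', ?_, ?_, ?_⟩
  · rw [List.length_append]; omega
  · intro x hx
    rcases List.mem_append.1 hx with hx | hx
    · exact h2 x hx
    · exact h2' x hx
  · rw [List.prod_append, h3, h3']

theorem ball_gen {x : G} (hx : x ∈ X) : x ∈ Ball X 1 :=
  ⟨[x], by simp, by simpa using Or.inl hx, by simp⟩

theorem ball_gen_inv {x : G} (hx : x ∈ X) : x⁻¹ ∈ Ball X 1 :=
  ⟨[x⁻¹], by simp, by simpa using Or.inr hx, by simp⟩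

theorem ball_inv {n : ℕ} {g : G} (hg : g ∈ Ball X n) : g⁻¹ ∈ Ball X n := by
  obtain ⟨l, h1, h2, h3⟩ := hg
  refine ⟨(l.map fun x => x⁻¹).reverse, by simpa using h1, ?_, ?_⟩
  · intro x hx
    rw [List.mem_reverse, List.mem_map] at hx
    obtain ⟨y, hy, rfl⟩ := hx
    rcases h2 y hy with h | h
    · right; simpa using h
    · left; exact h
  · rw [← h3, List.prod_inv_reverse]

theorem ball_list {n : ℕ} : ∀ {l : List G}, (∀ x ∈ l, x ∈ Ball X n) →
    l.prod ∈ Ball X (l.length * n)
  | [], _ => by simpa using ball_one 0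
  | a :: l, h => by
    rw [List.prod_cons, List.length_cons]
    have h1 := ball_mul (h a (by simp)) (ball_list (l := l) fun x hx => h x (by simp [hx]))
    exact ball_mono (by ring_nf; omega) h1

theorem ball_finite (X : Finset G) (n : ℕ) : (Ball X n).Finite := by
  classical
  let T : Set G := {x | x ∈ X ∨ x⁻¹ ∈ X}
  have hT : T.Finite := by
    have h1 : T ⊆ (X : Set G) ∪ (fun x => x⁻¹) '' (X : Set G) := by
      rintro x (h | h)
      · exact Or.inl h
      · exact Or.inr ⟨x⁻¹, h, by simp⟩
    exact (X.finite_toSet.union (X.finite_toSet.image _)).subset h1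
  have : Finite T := hT
  have h2 := List.finite_length_le T n
  refine (h2.image fun l => (l.map Subtype.val).prod).subset ?_
  rintro g ⟨l, h1, h3, h4⟩
  refine ⟨l.pmap (fun x hx => (⟨x, hx⟩ : T)) h3, ?_, ?_⟩
  · simpa using h1
  · simp only [List.map_pmap, List.pmap_eq_map, List.map_id', h4]

theorem pow_mem {x : G} (hx : x ∈ X) {c : ℤ} (hc : |c| ≤ 1) : x ^ c ∈ Ball X 1 := by
  have h : c = -1 ∨ c = 0 ∨ c = 1 := by
    have := abs_le.1 hc
    omega
  rcases h with rfl | rfl | rfl
  · simpa using ball_gen_inv hx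
  · simpa using ball_one 1
  · simpa using ball_gen hx

/-- the product of powers -/
def pw {t : ℕ} (s : Fin t → G) (c : Fin t → ℤ) : G := (List.ofFn fun j => s j ^ c j).prod

theorem pw_mem {t : ℕ} {s : Fin t → G} (hs : ∀ j, s j ∈ X) {c : Fin t → ℤ}
    (hc : ∀ j, |c j| ≤ 1) : pw s c ∈ Ball X t := by
  have h := ball_list (X := X) (n := 1) (l := List.ofFn fun j => s j ^ c j) (by
    intro x hx
    rw [List.mem_ofFn] at hx
    obtain ⟨j, rfl⟩ := hx
    exact pow_mem (hs j) (hc j))
  simpa [pw] using h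

theorem of_pw {t : ℕ} (s : Fin t → G) (c : Fin t → ℤ) :
    Abelianization.of (pw s c) = ∏ j, Abelianization.of (s j) ^ c j := by
  unfold pw
  rw [map_list_prod, List.map_ofFn, List.prod_ofFn]
  simp

theorem pw_closure {t : ℕ} (s : Fin t → G) (c : Fin t → ℤ) :
    pw s c ∈ Subgroup.closure (Set.range s) := by
  unfold pw
  apply Subgroup.list_prod_mem
  intro x hx
  rw [List.mem_ofFn] at hx
  obtain ⟨j, rfl⟩ := hx
  exact Subgroup.zpow_mem _ (Subgroup.subset_closure (Set.mem_range_self j)) _

/-- independent families -/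
def Good {t : ℕ} (s : Fin t → G) : Prop :=
  ∀ c : Fin t → ℤ, (∀ j, |c j| ≤ 1) → ∏ j, Abelianization.of (s j) ^ c j = 1 → c = 0

theorem good_lt {N n : ℕ} (hN : N ≤ n) (hb : (Ball X n).ncard < 2 ^ N) {s : Fin N → G}
    (hs : ∀ j, s j ∈ X) : ¬ Good s := by
  intro hg
  have hinj : Function.Injective fun e : Fin N → Fin 2 =>
      (⟨pw s fun j => ((e j : ℕ) : ℤ), ball_mono hN (pw_mem hs (by
        intro j
        have := (e j).2
        rw [abs_le]
        constructor <;> omega))⟩ : Ball X n) := by
    intro e e' h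
    have h1 : pw s (fun j => ((e j : ℕ) : ℤ)) = pw s (fun j => ((e' j : ℕ) : ℤ)) :=
      congrArg Subtype.val h
    have h2 := congrArg (Abelianization.of (G := G)) h1
    rw [of_pw, of_pw] at h2
    have h3 : ∏ j, Abelianization.of (s j) ^ (((e j : ℕ) : ℤ) - ((e' j : ℕ) : ℤ)) = 1 := by
      simp only [zpow_sub, Finset.prod_mul_distrib, Finset.prod_inv_distrib, h2, mul_inv_cancel]
    have h4 := hg _ (by
      intro j
      have h5 := (e j).2
      have h6 := (e' j).2
      rw [abs_le]
      constructor <;> omega) h3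
    funext j
    have h5 := congrFun h4 j
    simp only [Pi.zero_apply] at h5
    apply Fin.ext
    omega
  have : Finite (Ball X n) := ball_finite X n
  have h := Nat.card_le_card_of_injective _ hinj
  rw [Nat.card_eq_fintype_card, Fintype.card_fun, Fintype.card_fin, Fintype.card_fin] at h
  have h' : Nat.card (Ball X n) = (Ball X n).ncard := rfl
  exact absurd (h.trans h'.le) (not_le.2 hb)

theorem exists_rep {N n : ℕ} (hN : N ≤ n) (hb : (Ball X n).ncard < 2 ^ N) :
    ∃ (t : ℕ) (s : Fin t → G), t < N ∧ (∀ j, s j ∈ X) ∧ ∀ x ∈ X, ∃ d : Fin t → ℤ,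
      (∀ j, |d j| ≤ 1) ∧ Abelianization.of x = ∏ j, Abelianization.of (s j) ^ d j := by
  classical
  have hex : ∃ t : ℕ, ¬ ∃ s : Fin t → G, (∀ j, s j ∈ X) ∧ Good s :=
    ⟨N, fun ⟨s, h1, h2⟩ => good_lt hN hb h1 h2⟩
  have hle : Nat.find hex ≤ N := Nat.find_min' hex fun ⟨s, h1, h2⟩ => good_lt hN hb h1 h2
  have hpos : Nat.find hex ≠ 0 := by
    intro h
    have h1 := Nat.find_spec hex
    rw [h] at h1
    exact h1 ⟨fun j => j.elim0, fun j => j.elim0, fun c _ _ => funext fun j => j.elim0⟩
  obtain ⟨t, ht⟩ := Nat.exists_eq_succ_of_ne_zero hpos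
  have h1 : ∃ s : Fin t → G, (∀ j, s j ∈ X) ∧ Good s := by
    by_contra hcon
    have := Nat.find_min' hex hcon
    omega
  have h2 : ¬ ∃ s : Fin (t + 1) → G, (∀ j, s j ∈ X) ∧ Good s := by
    have := Nat.find_spec hex
    rwa [ht] at this
  obtain ⟨s, hs, hg⟩ := h1
  refine ⟨t, s, by omega, hs, fun x hx => ?_⟩
  have h3 : ¬ Good (Fin.cons x s : Fin (t + 1) → G) := by
    intro h
    refine h2 ⟨_, ?_, h⟩
    intro j
    refine Fin.cases ?_ ?_ j
    · simpa using hx
    · intro i
      simpa using hs i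
  unfold Good at h3
  push Not at h3
  obtain ⟨c, hc, h4, h5⟩ := h3
  rw [Fin.prod_univ_succ] at h4
  simp only [Fin.cons_zero, Fin.cons_succ] at h4
  have hc0 : c 0 = -1 ∨ c 0 = 0 ∨ c 0 = 1 := by
    have := abs_le.1 (hc 0)
    omega
  rcases hc0 with h0 | h0 | h0
  · refine ⟨fun j => c j.succ, fun j => hc _, ?_⟩
    rw [h0, zpow_neg_one, inv_mul_eq_one] at h4
    exact h4
  · exfalso
    rw [h0, zpow_zero, one_mul] at h4
    have h6 := hg _ (fun j => hc j.succ) h4
    apply h5
    funext j
    refine Fin.cases ?_ ?_ j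
    · simpa using h0
    · intro i
      have := congrFun h6 i
      simpa using this
  · refine ⟨fun j => - c j.succ, fun j => by rw [abs_neg]; exact hc _, ?_⟩
    rw [h0, zpow_one] at h4
    simp only [zpow_neg, Finset.prod_inv_distrib]
    exact eq_inv_of_mul_eq_one_left h4

theorem of_eq_one_iff (g : G) : Abelianization.of g = 1 ↔ g ∈ commutator G := by
  rw [← MonoidHom.mem_ker, Abelianization.ker_of]

theorem level0 : S_LEVEL0 := by
  classical
  intro G _ X hX N n _ hNn hb
  obtain ⟨t, s, ht, hs, hrep⟩ := exists_rep hNn hb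
  have hK : ⁅(⊤ : Subgroup G), (⊤ : Subgroup G)⁆ = commutator G := rfl
  rw [hK]
  choose! d hd1 hd2 using hrep
  have hgK : ∀ x ∈ X, x⁻¹ * pw s (d x) ∈ commutator G := by
    intro x hx
    rw [← of_eq_one_iff, map_mul, map_inv, of_pw, ← hd2 x hx, inv_mul_cancel]
  constructor
  · refine ⟨Finset.univ.image s, ?_, ?_, ?_⟩
    · refine Finset.card_image_le.trans ?_
      simp only [Finset.card_univ, Fintype.card_fin]
      omega
    · intro g hg
      rw [Finset.mem_image] at hg
      obtain ⟨j, -, rfl⟩ := hg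
      exact ball_gen (hs j)
    · rw [eq_top_iff, ← hX, Subgroup.closure_le]
      intro x hx
      have h1 : pw s (d x) ∈ Subgroup.closure ((Finset.univ.image s : Finset G) : Set G) := by
        have := pw_closure s (d x)
        simpa using this
      have h2 : x = pw s (d x) * (x⁻¹ * pw s (d x))⁻¹ := by group
      rw [SetLike.mem_coe, h2]
      exact Subgroup.mul_mem_sup h1 (Subgroup.inv_mem _ (hgK x hx))
  · refine ⟨((fun x => x⁻¹ * pw s (d x)) '' (X : Set G)) ∪
      Set.range (fun p : Fin t × Fin t => ⁅s p.1, s p.2⁆), ?_, ?_⟩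
    · rintro g (⟨x, hx, rfl⟩ | ⟨⟨i, j⟩, rfl⟩)
      · exact ball_mono (by omega) (ball_mul (ball_gen_inv hx) (pw_mem hs (hd1 x hx)))
      · have h1 := ball_mul (ball_mul (ball_mul (ball_gen (hs i)) (ball_gen (hs j)))
          (ball_gen_inv (hs i))) (ball_gen_inv (hs j))
        exact ball_mono (by omega) h1
    · set R := ((fun x => x⁻¹ * pw s (d x)) '' (X : Set G)) ∪
        Set.range (fun p : Fin t × Fin t => ⁅s p.1, s p.2⁆) with hR
      apply le_antisymm
      · apply Subgroup.normalClosure_le_normal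
        rintro g (⟨x, hx, rfl⟩ | ⟨⟨i, j⟩, rfl⟩)
        · exact hgK x hx
        · exact Subgroup.commutator_mem_commutator (Subgroup.mem_top _) (Subgroup.mem_top _)
      · let B := Subgroup.normalClosure R
        let q := QuotientGroup.mk' B
        have hR' : ∀ r ∈ R, q r = 1 := fun r hr =>
          (QuotientGroup.eq_one_iff r).2 (Subgroup.subset_normalClosure hr)
        have hcomm : ∀ a ∈ Set.range (q ∘ s), ∀ b ∈ Set.range (q ∘ s), a * b = b * a := by
          rintro _ ⟨i, rfl⟩ _ ⟨j, rfl⟩
          have h1 : q ⁅s i, s j⁆ = 1 := hR' _ (Or.inr ⟨(i, j), rfl⟩)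
          rw [map_commutatorElement, commutatorElement_eq_one_iff_mul_comm] at h1
          exact h1
        have hgen : ∀ g : G, q g ∈ Subgroup.closure (Set.range (q ∘ s)) := by
          have h1 : (⊤ : Subgroup G) ≤ (Subgroup.closure (Set.range (q ∘ s))).comap q := by
            rw [← hX, Subgroup.closure_le]
            intro x hx
            have h2 : q (x⁻¹ * pw s (d x)) = 1 := hR' _ (Or.inl ⟨x, hx, rfl⟩)
            rw [map_mul, map_inv, inv_mul_eq_one] at h2
            rw [SetLike.mem_coe, Subgroup.mem_comap, h2]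
            have h3 := Subgroup.mem_map_of_mem q (pw_closure s (d x))
            rw [MonoidHom.map_closure, ← Set.range_comp] at h3
            exact h3
          intro g
          exact h1 (Subgroup.mem_top g)
        have hc2 : ∀ a b : G, q a * q b = q b * q a := by
          intro a b
          have ha := hgen a
          have hb := hgen b
          refine Subgroup.closure_induction₂ (p := fun x y _ _ => x * y = y * x) ?_ ?_ ?_ ?_ ?_ ?_ ?_
            ha hb
          · intro x y hx hy
            exact hcomm x hx y hy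
          · intro x _
            simp
          · intro x _
            simp
          · intro x y z _ _ _ h1 h2
            rw [mul_assoc, h2, ← mul_assoc, h1, mul_assoc]
          · intro x y z _ _ _ h1 h2
            rw [← mul_assoc, h1, mul_assoc, h2, mul_assoc]
          · intro x y _ _ h
            exact (Commute.inv_left (show Commute x y from h)).eq
          · intro x y _ _ h
            exact (Commute.inv_right (show Commute x y from h)).eq
        rw [commutator_def, Subgroup.commutator_le]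
        intro a _ b _
        have h1 : q ⁅a, b⁆ = 1 := by
          rw [map_commutatorElement, commutatorElement_eq_one_iff_mul_comm]
          exact hc2 a b
        exact (QuotientGroup.eq_one_iff _).1 h1

end Pool.Agent.Y369.UGS
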